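import Pool.Agent.H30.UI.AsymAll

/-!
# MP_fffc5a_co: the asymptotic value of `m(n,k,u,v)` for all `n`

`UnionIntersecting`, `sizes` are in `Pool/Agent/H30/UI/Defs.lean`: `sizes n k u v` is the set of
sizes of the `(u,v)`-union-intersecting families of `k`-subsets of `[n]`, so `m(n,k,u,v)` is its
greatest element.
-/

namespace Pool.Agent.Results.MP_fffc5a_co.AsymptoticAllN

open Finset Pool.Agent.H30.UI

/-- Let `1 ≤ u ≤ v`.
(1) If `v ≥ 2`: `m(n,k,u,v) = C(n,k)` for all `n ≤ 2k`, and for `n = 2k+1` if `u ≥ 2`.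
(2) There is `C = C(u,v)` such that for ALL other `k ≥ 1` and `n`, i.e. for all `n ≥ 2k+2`, and for
`n = 2k+1` if `u = 1`: `C(n-1,k-1) ≤ m(n,k,u,v) ≤ (1 + C/k) C(n-1,k-1)`. -/
theorem result (u v : ℕ) (hu : 1 ≤ u) (huv : u ≤ v) :
    (2 ≤ v → ∀ k n : ℕ, 1 ≤ k → (n ≤ 2 * k ∨ (2 ≤ u ∧ n ≤ 2 * k + 1)) →
      IsGreatest (sizes n k u v) (n.choose k)) ∧
    (∃ C : ℝ, ∀ k n : ℕ, 1 ≤ k → (2 * k + 2 ≤ n ∨ (u = 1 ∧ n = 2 * k + 1)) →
      ∃ m : ℕ, IsGreatest (sizes n k u v) m ∧ ((n - 1).choose (k - 1) : ℝ) ≤ m ∧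
        (m : ℝ) ≤ (1 + C / k) * ((n - 1).choose (k - 1) : ℝ)) := by
  refine ⟨fun hv k n _ h => small_n hu huv hv h, ?_⟩
  obtain ⟨C, hC⟩ := asym u v hu huv
  refine ⟨C, fun k n hk hn => ?_⟩
  have hne : (sizes n k u v).Nonempty := by
    refine ⟨0, ∅, Finset.empty_subset _, ?_, rfl⟩
    intro f g _ _ hf _
    exact absurd (hf ⟨0, by omega⟩) (Finset.notMem_empty _)
  have hbdd : BddAbove (sizes n k u v) := by
    refine ⟨n.choose k, ?_⟩
    rintro c ⟨F, hF, _, rfl⟩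
    have := Finset.card_le_card hF
    rwa [Finset.card_powersetCard, Finset.card_univ, Fintype.card_fin] at this
  have hm : IsGreatest (sizes n k u v) (sSup (sizes n k u v)) :=
    ⟨Nat.sSup_mem hne hbdd, fun c hc => le_csSup hbdd hc⟩
  exact ⟨_, hm, hC k n hk hn _ hm⟩

end Pool.Agent.Results.MP_fffc5a_co.AsymptoticAllN
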