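import Pool.Agent.H30.UI.Second

/-!
# MP_fffc5a_co: the second order term for all `n ≥ (2+ε)k`, and the case `u = 1`

`UnionIntersecting`, `sizes` are in `Pool/Agent/H30/UI/Defs.lean`: `sizes n k u v` is the set of
sizes of the `(u,v)`-union-intersecting families of `k`-subsets of `[n]`, so `m(n,k,u,v)` is its
greatest element.
-/

namespace Pool.Agent.Results.MP_fffc5a_co.SecondOrder

open Finset Pool.Agent.H30.UI

/-- For all `1 ≤ u ≤ v`, `β > 0`, all `k ≥ k₀(u,v,β)` and all `n`, `r ≥ k` with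
`r + k + β n ≤ n - 1`: `(m(n,k,u,v) - C(n-1,k-1)) C(r,k) ≤ 2(u-1) C(n-1,k)`.
In particular, for `u = 1`: `m(n,k,1,v) = C(n-1,k-1)` for all `n ≥ (2+ε)k`, `k ≥ k₀(v,ε)`. -/
theorem result :
    (∀ u v : ℕ, 1 ≤ u → u ≤ v → ∀ β : ℝ, 0 < β → ∃ k0 : ℕ, ∀ k n r : ℕ, k0 ≤ k → k ≤ r →
      (r : ℝ) + k + β * n ≤ n - 1 → ∀ m : ℕ, IsGreatest (sizes n k u v) m →
      ((m : ℝ) - ((n - 1).choose (k - 1) : ℝ)) * (r.choose k : ℝ) ≤
        2 * ((u : ℝ) - 1) * ((n - 1).choose k : ℝ)) ∧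
    (∀ v : ℕ, 1 ≤ v → ∀ ε : ℝ, 0 < ε → ∃ k0 : ℕ, ∀ k n : ℕ, k0 ≤ k → (2 + ε) * k ≤ n →
      IsGreatest (sizes n k 1 v) ((n - 1).choose (k - 1))) := by
  refine ⟨?_, main_one s_A1 s_A3 H82.UI.free⟩
  intro u v hu huv β hβ
  obtain ⟨k0, h0⟩ := second u v hu huv β hβ
  refine ⟨k0, fun k n r hk hkr hr m hm => ?_⟩
  have h := h0 k n r hk hkr hr m hm.1
  have hu1 : ((u - 1 : ℕ) : ℝ) = (u : ℝ) - 1 := by
    rw [Nat.cast_sub hu]; simp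
  rwa [hu1] at h

end Pool.Agent.Results.MP_fffc5a_co.SecondOrder
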