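import Pool.Agent.H30.UI.All

/-!
# MP_fffc5a_co: the exact range of validity of the Katona-Nagy formula

`UnionIntersecting`, `sizes` are in `Pool/Agent/H30/UI/Defs.lean`: `sizes n k u v` is the set of
sizes of the `(u,v)`-union-intersecting families of `k`-subsets of `[n]`, so `m(n,k,u,v)` is its
greatest element.
-/

namespace Pool.Agent.Results.MP_fffc5a_co.SharpThreshold

open Finset Pool.Agent.H30.UI

/-- Let `2 ≤ u ≤ v`.  For all `k ≥ k₀(u,v)` and all `n ≥ (u+1)k - c k`, `c = 1/max(200,(u+2)²)`: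
`m(n,k,u,v) = C(n-1,k-1) + g` with `g = u-1` if `n > (u+1)k`, `g = u` if
`(u+1)k - (u-1)/2 < n ≤ (u+1)k`, and `g = u+1` if `n ≤ (u+1)k - (u-1)/2`.
Moreover (also for `u = 1`, if `v ≥ 2`) `m(n,k,u,v) ≥ C(n-1,k-1) + u` for all `2k ≤ n ≤ (u+1)k`
with `C(n-1,k) ≥ u`.  For all `k ≥ 2` (and `1 ≤ u ≤ v`) the formula
`m(n,k,u,v) = C(n-1,k-1) + u - 1` holds for all `n ≥ C k`, `C = C(u,v)`. -/
theorem result :
    (∀ u v : ℕ, 2 ≤ u → u ≤ v → ∃ k0 : ℕ, ∀ k n : ℕ, k0 ≤ k →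
      200 * ((u + 1) * k - n) ≤ k → (u + 2) ^ 2 * ((u + 1) * k - n) ≤ k →
      IsGreatest (sizes n k u v) ((n - 1).choose (k - 1) +
        (if (u + 1) * k < n then u - 1
          else if 2 * ((u + 1) * k - n) + 1 < u then u else u + 1))) ∧
    (∀ u v k n : ℕ, 1 ≤ u → u ≤ v → 2 ≤ v → 1 ≤ k → 2 * k ≤ n → n ≤ (u + 1) * k →
      u ≤ (n - 1).choose k → ∃ c ∈ sizes n k u v, (n - 1).choose (k - 1) + u ≤ c) ∧
    (∀ u v : ℕ, 1 ≤ u → u ≤ v → ∃ C : ℕ, ∀ k n : ℕ, 2 ≤ k → C * k ≤ n →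
      IsGreatest (sizes n k u v) ((n - 1).choose (k - 1) + (u - 1))) := by
  refine ⟨?_, ?_, ?_⟩
  · exact main_sharp s_A1 s_A2 H82.UI.free H9.UI.con2 H67.UI.con3
  · intro u v k n hu huv hv hk hn hn2 hc
    exact ⟨_, lower_u H82.UI.free H9.UI.con2 hu huv hv hk hn hn2 hc, le_rfl⟩
  · exact main_linear s_A1 s_A4 H82.UI.free

end Pool.Agent.Results.MP_fffc5a_co.SharpThreshold
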