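import Pool.Agent.H30.UI.U1
import Pool.Agent.H30.UI.Bridge

/-!
# MP_fffc5a_co: a bound for `(u,v)`-union-intersecting families for all `n ≥ 2k`

`UnionIntersecting`, `sizes` are in `Pool/Agent/H30/UI/Defs.lean`: `sizes n k u v` is the set of
sizes of the `(u,v)`-union-intersecting families of `k`-subsets of `[n]`, so `m(n,k,u,v)` is its
greatest element.
-/

namespace Pool.Agent.Results.MP_fffc5a_co.UniversalBound

open Finset Pool.Agent.H30.UI

/-- For all `n ≥ 2k ≥ 2` and `1 ≤ u ≤ v`: every `(u,v)`-union-intersecting family of `k`-subsets of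
`[n]` becomes intersecting after the removal of at most `(v-1) 4^(k+1)` sets, and
`C(n-1,k-1) ≤ m(n,k,u,v) ≤ C(n-1,k-1) + (v-1) 4^(k+1)`. -/
theorem result (n k u v : ℕ) (hk : 1 ≤ k) (hn : 2 * k ≤ n) (hu : 1 ≤ u) (huv : u ≤ v) :
    (∀ F : Finset (Finset (Fin n)), F ⊆ powersetCard k univ → UnionIntersecting u v F →
      ∃ F' ⊆ F, (∀ A ∈ F', ∀ B ∈ F', (A ∩ B).Nonempty) ∧
        (F \ F').card ≤ (v - 1) * 4 ^ (k + 1)) ∧
    (∃ m : ℕ, IsGreatest (sizes n k u v) m ∧ (n - 1).choose (k - 1) ≤ m ∧
      m ≤ (n - 1).choose (k - 1) + (v - 1) * 4 ^ (k + 1)) := by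
  have hrem : ∀ F : Finset (Finset (Fin n)), F ⊆ powersetCard k univ → UnionIntersecting u v F →
      ∃ F' ⊆ F, (∀ A ∈ F', ∀ B ∈ F', (A ∩ B).Nonempty) ∧
        (F \ F').card ≤ (v - 1) * 4 ^ (k + 1) := by
    intro F hF hU
    obtain ⟨F', h1, h2, h3⟩ := plus choose4 (Fin n) k u v hk (by rw [Fintype.card_fin]; exact hn) hu
      huv F (fun A hA => (Finset.mem_powersetCard.1 (hF hA)).2) (KF_of_UI hU)
    refine ⟨F', h1, fun A hA B hB => ?_, h3⟩
    have := h2 A hA B hB
    rwa [Finset.not_disjoint_iff_nonempty_inter] at this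
  refine ⟨hrem, ?_⟩
  have hup : ∀ c ∈ sizes n k u v, c ≤ (n - 1).choose (k - 1) + (v - 1) * 4 ^ (k + 1) := by
    rintro c ⟨F, hF, hU, rfl⟩
    obtain ⟨F', h1, h2, h3⟩ := hrem F hF hU
    have hEKR : F'.card ≤ (n - 1).choose (k - 1) := by
      refine Finset.erdos_ko_rado ?_ ?_ (by omega)
      · intro A hA B hB hd
        have := h2 A hA B hB
        rw [← Finset.not_disjoint_iff_nonempty_inter] at this
        exact this hd
      · intro A hA
        exact (Finset.mem_powersetCard.1 (hF (h1 hA))).2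
    have := Finset.card_sdiff_add_card_eq_card h1
    omega
  have hn0 : 0 < n := by omega
  let x : Fin n := ⟨0, hn0⟩
  have hstar : (n - 1).choose (k - 1) ∈ sizes n k u v := by
    refine ⟨(powersetCard k (univ : Finset (Fin n))).filter (fun A => x ∈ A),
      Finset.filter_subset _ _, ?_, ?_⟩
    · intro f g _ _ hf hg
      refine ⟨x, Finset.mem_inter.2 ⟨Finset.mem_biUnion.2 ⟨⟨0, by omega⟩, Finset.mem_univ _, ?_⟩,
        Finset.mem_biUnion.2 ⟨⟨0, by omega⟩, Finset.mem_univ _, ?_⟩⟩⟩
      · exact (Finset.mem_filter.1 (hf _)).2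
      · exact (Finset.mem_filter.1 (hg _)).2
    · have e : ((powersetCard k (univ : Finset (Fin n))).filter (fun A => x ∈ A)).card =
          (powersetCard (k - 1) (univ.erase x)).card := by
        refine Finset.card_bij' (fun A _ => A.erase x) (fun B _ => insert x B) ?_ ?_ ?_ ?_
        · intro A hA
          rw [Finset.mem_filter, Finset.mem_powersetCard] at hA
          rw [Finset.mem_powersetCard]
          exact ⟨Finset.erase_subset_erase _ (Finset.subset_univ _), by
            rw [Finset.card_erase_of_mem hA.2, hA.1.2]⟩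
        · intro B hB
          rw [Finset.mem_powersetCard] at hB
          have hx : x ∉ B := fun hx => Finset.notMem_erase x univ (hB.1 hx)
          rw [Finset.mem_filter, Finset.mem_powersetCard]
          refine ⟨⟨Finset.subset_univ _, ?_⟩, Finset.mem_insert_self _ _⟩
          rw [Finset.card_insert_of_notMem hx, hB.2]; omega
        · intro A hA
          exact Finset.insert_erase (Finset.mem_filter.1 hA).2
        · intro B hB
          rw [Finset.mem_powersetCard] at hB
          have hx : x ∉ B := fun hx => Finset.notMem_erase x univ (hB.1 hx)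
          exact Finset.erase_insert hx
      rw [e, Finset.card_powersetCard, Finset.card_erase_of_mem (Finset.mem_univ _),
        Finset.card_univ, Fintype.card_fin]
  have hne : (sizes n k u v).Nonempty := ⟨_, hstar⟩
  have hbdd : BddAbove (sizes n k u v) := ⟨_, fun c hc => hup c hc⟩
  refine ⟨sSup (sizes n k u v), ⟨Nat.sSup_mem hne hbdd, fun c hc => le_csSup hbdd hc⟩,
    le_csSup hbdd hstar, hup _ (Nat.sSup_mem hne hbdd)⟩

end Pool.Agent.Results.MP_fffc5a_co.UniversalBound
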